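import Pool.Agent.W534.Off

/-!
# Poles of the zeta function of the product of a variety and a hyperplane section

Let `X` be a smooth proper variety of dimension `n ≥ 1` over an algebraic closure `k` of a finite
field, `i` a morphism from a smooth proper variety `Y` of dimension `n - 1` to `X`, and `D` a
divisor with the class of `i_* [Y]` (for example `Y` a smooth hyperplane section of a projective
variety `X`). Let `W` be a Weil cohomology theory such that hard Lefschetz holds for `X` and `D`,
and weak Lefschetz holds for `i`, together with the Frobenius endomorphisms, which satisfy the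
Riemann hypothesis (theorems of Deligne, and of Artin and Grothendieck, for `l`-adic cohomology).

The pole formula for a variety and an integer `j` says that the zeta function of the variety over
all sufficiently large finite fields has at `j` the order `- r`, where `r` is the rank of the group
of the cycles of codimension `j` modulo numerical equivalence. The following are equivalent.

1. The pole formula for `X × Y` (of dimension `2 n - 1`) and the integer `n - 1`.
2. The pole formula for `X × Y` and the integer `n`.
3. The pole formula for `X × Y` and all integers.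
4. The generalised eigenspaces of the Frobenius endomorphisms in the cohomology of `X × Y` of
   degree `2 (n - 1)`, for the eigenvalue `q ^ (n - 1)`, are spanned by classes of cycles.

If they hold, then the pole formula holds for `X` and for `Y` and all integers, for `X × X` and
all integers different from `n`, and for `Y × Y` and all integers different from `n - 1`, and the
conjecture B holds for `X`.
-/

open CategoryTheory Pool.Agent.H914 Pool.Agent.W534

universe u v

namespace Pool.Agent.Results.MP_223b32_ag.HyperplaneProductPoles

/-- **One pole of the zeta function of `X × Y` decides the orders of all poles for `X`, `Y`,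
`X × Y`, and of all but one for `X × X` and `Y × Y`, where `Y` is a hyperplane section of `X`.** -/
theorem result {k : Type u} [Field k] [IsAlgClosed k] {𝒱 : VarClass k} {ops : CycleOps 𝒱}
    (W : WeilCohomology.{u, v} ops) (σ : W.K →+* ℂ) (p : ℕ) (hp : 1 < p) (Φ : FrobSystem W p)
    (hRH : ∀ Z, RiemannHyp Φ σ Z) (X Y : 𝒱.Obj) (i : Y ⟶ X)
    (hdim : X.dim = Y.dim + 1) (D : X.Cycles) (hD : X.IsCyc 1 D)
    (hY : W.cl X (ops.push i Y.V.fundCycle) = W.cl X D)
    (hHL : HardLefschetz W X D) (hWL : WeakLefschetz W i) :
    List.TFAE [
      PoleFormula Φ σ (X.prod Y) Y.dim,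
      PoleFormula Φ σ (X.prod Y) X.dim,
      ∀ j ≤ (X.prod Y).dim, PoleFormula Φ σ (X.prod Y) j,
      SemisimpleTateIn Φ (X.prod Y) Y.dim] ∧
    (PoleFormula Φ σ (X.prod Y) Y.dim → LefschetzB W X D ∧
      (∀ j ≤ X.dim, PoleFormula Φ σ X j) ∧
      (∀ j ≤ Y.dim, PoleFormula Φ σ Y j) ∧
      (∀ j ≤ (X.prod X).dim, j ≠ X.dim → PoleFormula Φ σ (X.prod X) j) ∧
      ∀ j ≤ (Y.prod Y).dim, j ≠ Y.dim → PoleFormula Φ σ (Y.prod Y) j) := by
  refine ⟨pole_hyperplane hp hRH hdim hD hY hHL hWL, fun h => ?_⟩
  obtain ⟨h1, h2, h3⟩ := pole_factors hp hRH hdim hD hY hHL hWL h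
  obtain ⟨h4, h5⟩ := pole_squares hp hRH hdim hD hY hHL hWL h
  exact ⟨h1, h2, h3, h4, h5⟩

end Pool.Agent.Results.MP_223b32_ag.HyperplaneProductPoles
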