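import Pool.Agent.W547.DR.Lim

/-!
# The analytic Tate conjecture for `B ^ n × S`, `B` absolutely simple of dimension at most five over a
finite field, `S` supersingular

Over an algebraic closure of the field with `p` elements each abelian variety is isogenous to the
reduction of an abelian variety of CM type (Honda, Tate). So an abelian variety over the field with
`p ^ a` elements is modelled by a finite product `X` of CM types `(E i, Φ i)` with Weil numbers
`π i ∈ E i` that satisfy the formula of Shimura and Taniyama (`RedAV`); its rational Tate module, with
complex coefficients, is `ℂ ⊗ H_1(X, ℚ)`, on which the Frobenius endomorphism acts by `π`.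

Let `Y` be isogenous (over an algebraic closure) to `B ^ n × S`, where `S` is a supersingular abelian
variety of any dimension and `B` is the reduction of an abelian variety with complex multiplication
by a CM field of degree at most ten (each absolutely simple abelian variety of dimension at most five
is of this form; there is no condition on the Newton polygon). Let `C r` be rational vector spaces of
cohomology classes of degree `2 r` on `Y` with the following properties of the spaces of classes of
algebraic cycles of codimension `r` over the extension `k` of degree `s` of the ground field
(`CycleSystem`): they consist of Tate classes, intersection numbers are rational, and the Tate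
classes in the system `Alg` generated by Tate classes of degree two and split Weil classes (which
are algebraic by theorems of Tate and Markman) are combinations of elements of `C r` with
coefficients in `ℂ`. Then numerically trivial classes in `C r` are zero, and the function
`L(z) = det (1 - Frob Q ^ (-z) | H^{2r}) ^ (-1)`, `Q` the number of elements of `k`, has at
`z = r = r + dim_a k` a pole of order `dim (C r)`.
-/

namespace Pool.Agent.Results.MP_223b32_ag.SimpleUpToDimensionFive

open Pool.Agent.W495.TA Pool.Agent.W547.KB Pool.Agent.W547.DR

/-- `A` is a CM type whose field has degree at most ten, with Frobenius endomorphism `ϖ` over the
field with `p ^ b` elements, and `Y` is isogenous (over an algebraic closure) to a product of a power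
of the reduction of `A` and of a supersingular abelian variety. There are systems of rational
subspaces with the properties of the spaces of classes of algebraic cycles over the extension of
degree `s`; and for all such systems `C` and all `r`, numerically trivial classes in `C r` are zero,
and the L-function of the cohomology of degree `2 r` over this extension has at `r` a pole of order
`dim (C r)`. -/
theorem result (p : ℕ) [Fact p.Prime] (ν : PadicAlgCl p ≃+* ℂ) (A : CMPair)
    (hA : Module.finrank ℚ A.E ≤ 10) (b : ℕ) (hb : 0 < b) (ϖ : A.E)
    (hϖ : IsFrobenius p ν A b ϖ) (Y : RedAV p ν) (hY : IsPowerTimesSupersingular A b ϖ Y) (s : ℕ)
    (hs : 0 < s) :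
    (∃ C : Sys ℂ Y, CycleSystem s C) ∧
      ∀ C : Sys ℂ Y, CycleSystem s C → ∀ r : ℕ, AnalyticFormula s C r :=
  analytic A hA b hb ϖ hϖ Y hY s hs

end Pool.Agent.Results.MP_223b32_ag.SimpleUpToDimensionFive
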