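import Pool.Agent.W353.AT.TMain

/-!
# Tate's conjecture on the pole over all number fields: finitely many Artin twists, one governing field

`X` is a smooth projective variety over a number field `K` and `V = A^m(X) ⊗ ℚ` the space of the classes
of the algebraic cycles of codimension `m` defined over the algebraic closure.  For every number field
`F ⊇ K`, `L(H^{2m}(X_F), s)` is an Euler product over the primes of `F`, and the rank of `A^m(X_F)` is
`dim V^{Gal(K̄/F)}`.  The defect over `F` is `ord_{s=m+1} L(H^{2m}(X_F), s) + rank A^m(X_F)`; Tate's
conjecture for `X_F` says that it is `0`.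
The definitions are in `Pool.Agent.W353.AT.TDefs`, `Pool.Agent.W353.AT.Defs`,
`Pool.Agent.W353.TD.Defs`, `Pool.Agent.W353.EH.Defs` and `Pool.Agent.W353.EF.Defs`.
-/

set_option autoImplicit false

namespace Pool.Agent.Results.MP_223b32_ag.TateOverAllNumberFields

open NumberField Pool.Agent.W353.AT

/-- **Tate's conjecture over all number fields.**  Let `X` be a projective variety of dimension `d` over
a number field `K`, `0 ≤ m ≤ d`, `N` the `2m`-th Betti number, `V` a part of `H^{2m}(X)(m)`, for
instance `V = A^m(X) ⊗ ℚ`, and `s = N - dim V`.
* (no continuation is assumed here) For every finite set of pairwise inequivalent irreducible Artin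
  representations `χ` of `K`, every `η > 0` and all small `ε > 0`, the sum of the squares of
  `log |L(H^{2m}(X) ⊗ χ, m + 1 + ε)| / log(1/ε) - dim (V ⊗ χ)^G` is at most `s² + η`.
* If for every irreducible Artin representation `χ` of `K` the quotient of logarithms has an integral
  limit, for instance if there is a meromorphic continuation to a neighbourhood of `m + 1`, then the
  defect `δ_χ` is `0` for all but finitely many `χ`, and `∑ δ_χ² ≤ s²`; there is a finite Galois
  extension `M` of `K` such that for all number fields `F ⊇ K`, of any degree, the defect over `F` is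
  `δ(F) = ∑ δ_χ dim χ^{Gal(K̄/F)}`, and `δ(F) = δ(F ∩ M)`. -/
theorem result (K : Type) [Field K] [NumberField K] (n d m N : ℕ)
    (X : Set (MvPolynomial (Fin n) (𝓞 K))) (V : Type) [AddCommGroup V] [Module ℚ V]
    [FiniteDimensional ℚ V] (ρ : Representation ℚ Gal(AlgebraicClosure K/K) V) (hm : m ≤ d)
    (hV : Pool.Agent.W353.TD.IsPart X d m N ρ) : TateOverAllFields X d m N ρ :=
  tateOverAllFields hm hV

end Pool.Agent.Results.MP_223b32_ag.TateOverAllNumberFields
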